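import Mathlib

set_option autoImplicit false

namespace Pool.Agent.H.MP_3e8e5c_co.helper58

/-! ### Irredundance by bit masks -/

/-- Union of the masks `nb u` over the members `u ≠ v` of `l`. -/
def cov (nb : ℕ → ℕ) (v : ℕ) (l : List ℕ) : ℕ :=
  l.foldr (fun u acc => bif Nat.beq u v then acc else nb u ||| acc) 0

/-- Boolean irredundance test for a list of vertices. -/
def irrB (nb : ℕ → ℕ) (l : List ℕ) : Bool :=
  l.all (fun v => !(Nat.beq (nb v &&& cov nb v l) (nb v)))

theorem testBit_cov (nb : ℕ → ℕ) (v : ℕ) (l : List ℕ) (w : ℕ) :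
    (cov nb v l).testBit w = true ↔ ∃ u ∈ l, u ≠ v ∧ (nb u).testBit w = true := by
  induction l with
  | nil => simp [cov]
  | cons x xs ih =>
    have hstep : cov nb v (x :: xs) = bif Nat.beq x v then cov nb v xs else nb x ||| cov nb v xs :=
      rfl
    rw [hstep]
    by_cases hx : x = v
    · subst hx
      simp only [Nat.beq_refl, cond_true, ih, List.mem_cons]
      constructor
      · rintro ⟨u, hu, h⟩; exact ⟨u, Or.inr hu, h⟩
      · rintro ⟨u, rfl | hu, h1, h2⟩
        · exact absurd rfl h1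
        · exact ⟨u, hu, h1, h2⟩
    · have : Nat.beq x v = false := by
        rw [← Bool.not_eq_true]
        intro h
        exact hx (Nat.eq_of_beq_eq_true h)
      simp only [this, cond_false, Nat.testBit_or, Bool.or_eq_true, ih, List.mem_cons]
      constructor
      · rintro (h | ⟨u, hu, h⟩)
        · exact ⟨x, Or.inl rfl, hx, h⟩
        · exact ⟨u, Or.inr hu, h⟩
      · rintro ⟨u, rfl | hu, h1, h2⟩
        · exact Or.inl h2
        · exact Or.inr ⟨u, hu, h1, h2⟩

theorem and_beq_false_iff (a b : ℕ) :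
    (!(Nat.beq (a &&& b) a)) = true ↔ ∃ w, a.testBit w = true ∧ b.testBit w = false := by
  have hb : (!(Nat.beq (a &&& b) a)) = true ↔ ¬ (a &&& b = a) := by
    rw [Bool.not_eq_true', ← Bool.not_eq_true]
    exact not_congr ⟨Nat.eq_of_beq_eq_true, fun h => by rw [h]; exact Nat.beq_refl a⟩
  rw [hb]
  constructor
  · intro h
    by_contra hcon
    push Not at hcon
    apply h
    apply Nat.eq_of_testBit_eq
    intro i
    rw [Nat.testBit_and]
    cases ha : a.testBit i
    · simp
    · have := hcon i ha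
      simp only [ne_eq, Bool.not_eq_false] at this
      simp [this]
  · rintro ⟨w, h1, h2⟩ h
    have := congrArg (fun x => Nat.testBit x w) h
    simp only [Nat.testBit_and, h1, h2] at this
    simp at this

theorem irrB_iff (nb : ℕ → ℕ) (l : List ℕ) : irrB nb l = true ↔
    ∀ v ∈ l, ∃ w, (nb v).testBit w = true ∧ ∀ u ∈ l, u ≠ v → (nb u).testBit w = false := by
  unfold irrB
  rw [List.all_eq_true]
  refine forall₂_congr (fun v _ => ?_)
  rw [and_beq_false_iff]
  refine exists_congr (fun w => and_congr_right (fun _ => ?_))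
  rw [← Bool.not_eq_true, testBit_cov]
  push Not
  simp only [ne_eq, Bool.not_eq_true]

/-! ### Graph side -/

/-- The irredundance predicate of the statement. -/
def Irr {n : ℕ} (G : SimpleGraph (Fin n)) (T : Finset (Fin n)) : Prop :=
  ∀ v ∈ T, ∃ w : Fin n, (w = v ∨ G.Adj v w) ∧ ∀ u ∈ T, u ≠ v → ¬ (w = u ∨ G.Adj u w)

/-- `nb` is the table of closed neighbourhoods of `G`. -/
def IsNb {n : ℕ} (G : SimpleGraph (Fin n)) (nb : ℕ → ℕ) : Prop :=
  ∀ (v : Fin n) (w : ℕ), (nb v).testBit w = true ↔ ∃ h : w < n, (⟨w, h⟩ = v ∨ G.Adj v ⟨w, h⟩)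

/-- The list `l` lists the members of `T`. -/
def Rep {n : ℕ} (T : Finset (Fin n)) (l : List ℕ) : Prop :=
  (∀ i ∈ l, i < n) ∧ ∀ v : Fin n, v ∈ T ↔ (v : ℕ) ∈ l

theorem irr_iff {n : ℕ} {G : SimpleGraph (Fin n)} {nb : ℕ → ℕ} (hnb : IsNb G nb)
    {T : Finset (Fin n)} {l : List ℕ} (hl : Rep T l) : Irr G T ↔ irrB nb l = true := by
  rw [irrB_iff]
  constructor
  · intro h v hv
    have hvn := hl.1 v hv
    obtain ⟨w, hw, hu⟩ := h ⟨v, hvn⟩ ((hl.2 _).2 hv)
    refine ⟨w, (hnb ⟨v, hvn⟩ w).2 ⟨w.2, hw⟩, fun u hul huv => ?_⟩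
    have hun := hl.1 u hul
    rw [← Bool.not_eq_true]
    intro hcon
    obtain ⟨_, hcon⟩ := (hnb ⟨u, hun⟩ w).1 hcon
    exact hu ⟨u, hun⟩ ((hl.2 _).2 hul) (fun h => huv (congrArg Fin.val h)) hcon
  · intro h v hv
    obtain ⟨w, hw, hu⟩ := h v ((hl.2 v).1 hv)
    obtain ⟨hwn, hw⟩ := (hnb v w).1 hw
    refine ⟨⟨w, hwn⟩, hw, fun u huT huv hcon => ?_⟩
    have h1 := hu u ((hl.2 u).1 huT) (fun h => huv (Fin.ext h))
    rw [← Bool.not_eq_true] at h1
    exact h1 ((hnb u w).2 ⟨hwn, hcon⟩)

theorem Irr.mono {n : ℕ} {G : SimpleGraph (Fin n)} {S T : Finset (Fin n)} (h : S ⊆ T)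
    (hT : Irr G T) : Irr G S := by
  intro v hv
  obtain ⟨w, hw, hu⟩ := hT v (h hv)
  exact ⟨w, hw, fun u hu' => hu u (h hu')⟩

theorem maximal_iff {n : ℕ} {G : SimpleGraph (Fin n)} {T : Finset (Fin n)} :
    Maximal (Irr G) T ↔ Irr G T ∧ ∀ w, w ∉ T → ¬ Irr G (insert w T) := by
  constructor
  · intro h
    refine ⟨h.1, fun w hw hcon => hw ?_⟩
    exact h.2 hcon (Finset.subset_insert _ _) (Finset.mem_insert_self _ _)
  · rintro ⟨h1, h2⟩
    refine ⟨h1, fun T' hT' hsub w hw => ?_⟩
    by_contra hwT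
    exact h2 w hwT (hT'.mono (Finset.insert_subset hw hsub))

theorem Rep.insert {n : ℕ} {T : Finset (Fin n)} {l : List ℕ} (hl : Rep T l) (w : Fin n) :
    Rep (insert w T) ((w : ℕ) :: l) := by
  constructor
  · intro i hi
    rcases List.mem_cons.1 hi with rfl | hi
    · exact w.2
    · exact hl.1 i hi
  · intro v
    rw [Finset.mem_insert, List.mem_cons, hl.2, Fin.ext_iff]

/-- Boolean test for maximal irredundance. -/
def maxB (nb : ℕ → ℕ) (n : ℕ) (l : List ℕ) : Bool :=
  irrB nb l && (List.range n).all (fun w => l.elem w || !(irrB nb (w :: l)))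

theorem maximal_of_maxB {n : ℕ} {G : SimpleGraph (Fin n)} {nb : ℕ → ℕ} (hnb : IsNb G nb)
    {T : Finset (Fin n)} {l : List ℕ} (hl : Rep T l) (h : maxB nb n l = true) :
    Maximal (Irr G) T := by
  unfold maxB at h
  rw [Bool.and_eq_true, List.all_eq_true] at h
  rw [maximal_iff]
  refine ⟨(irr_iff hnb hl).2 h.1, fun w hw hcon => ?_⟩
  have h1 := h.2 w (List.mem_range.2 w.2)
  rw [(irr_iff hnb (hl.insert w)).1 hcon] at h1
  simp only [Bool.not_true, Bool.or_false, List.elem_eq_mem, decide_eq_true_eq] at h1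
  exact hw ((hl.2 w).2 h1)

/-- Boolean test: `l` is redundant or has an irredundant one-point extension. -/
def good (nb : ℕ → ℕ) (n : ℕ) (l : List ℕ) : Bool :=
  !(irrB nb l) || (List.range n).any (fun w => !(l.elem w) && irrB nb (w :: l))

theorem not_maximal_of_good {n : ℕ} {G : SimpleGraph (Fin n)} {nb : ℕ → ℕ} (hnb : IsNb G nb)
    {T : Finset (Fin n)} {l : List ℕ} (hl : Rep T l) (h : good nb n l = true) :
    ¬ Maximal (Irr G) T := by
  intro hmax
  rw [maximal_iff] at hmax
  unfold good at h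
  rw [(irr_iff hnb hl).1 hmax.1] at h
  simp only [Bool.not_true, Bool.false_or, List.any_eq_true, List.mem_range, Bool.and_eq_true,
    Bool.not_eq_true', List.elem_eq_mem, decide_eq_false_iff_not] at h
  obtain ⟨w, hwn, hwl, hw⟩ := h
  refine hmax.2 ⟨w, hwn⟩ (fun hcon => hwl ((hl.2 _).1 hcon)) ?_
  exact (irr_iff hnb (hl.insert ⟨w, hwn⟩)).2 hw

/-- Check `P` on all sublists of `xs` with at most `k` members, put in front of `acc`. -/
def allSub (P : List ℕ → Bool) : List ℕ → ℕ → List ℕ → Bool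
  | [], _, acc => P acc
  | _ :: _, 0, acc => P acc
  | x :: xs, k + 1, acc => allSub P xs (k + 1) acc && allSub P xs k (x :: acc)

theorem allSub_spec (P : List ℕ → Bool) (xs : List ℕ) :
    ∀ (k : ℕ) (acc : List ℕ), allSub P xs k acc = true →
      ∀ l : List ℕ, l.Sublist xs → l.length ≤ k → P (l.reverse ++ acc) = true := by
  induction xs with
  | nil =>
    intro k acc h l hl _
    have : l = [] := List.sublist_nil.1 hl
    subst this
    simpa [allSub] using h
  | cons x xs ih =>
    intro k acc h l hl hk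
    cases k with
    | zero =>
      have : l = [] := List.length_eq_zero_iff.1 (by omega)
      subst this
      simpa [allSub] using h
    | succ k =>
      have h' : allSub P xs (k + 1) acc = true ∧ allSub P xs k (x :: acc) = true := by
        simpa [allSub] using h
      cases hl with
      | cons _ hl => exact ih _ _ h'.1 l hl hk
      | cons_cons _ hl =>
        rename_i l'
        have := ih _ _ h'.2 l' hl (by simpa using hk)
        simpa using this

/-- Every finset of `Fin n` is represented by a sublist of `List.range n` of the same size. -/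
theorem exists_rep {n : ℕ} (T : Finset (Fin n)) :
    ∃ l : List ℕ, l.Sublist (List.range n) ∧ l.length = T.card ∧ Rep T l := by
  classical
  let l := (List.range n).filter (fun i => decide (i ∈ T.map Fin.valEmbedding))
  have hmem : ∀ i, i ∈ l ↔ i ∈ T.map Fin.valEmbedding := by
    intro i
    simp only [l, List.mem_filter, List.mem_range, decide_eq_true_eq]
    constructor
    · exact fun h => h.2
    · intro h
      refine ⟨?_, h⟩
      obtain ⟨v, _, rfl⟩ := Finset.mem_map.1 h
      exact v.2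
  refine ⟨l, List.filter_sublist, ?_, ?_, ?_⟩
  · have hnd : l.Nodup := List.nodup_range.filter _
    rw [← List.toFinset_card_of_nodup hnd, ← Finset.card_map Fin.valEmbedding]
    congr 1
    ext i
    rw [List.mem_toFinset, hmem]
  · intro i hi
    obtain ⟨v, _, rfl⟩ := Finset.mem_map.1 ((hmem i).1 hi)
    exact v.2
  · intro v
    rw [hmem]
    constructor
    · intro h
      exact Finset.mem_map.2 ⟨v, h, rfl⟩
    · intro h
      obtain ⟨v', hv', h⟩ := Finset.mem_map.1 h
      have : v' = v := Fin.ext h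
      rwa [← this]

theorem Rep.reverse {n : ℕ} {T : Finset (Fin n)} {l : List ℕ} (hl : Rep T l) :
    Rep T l.reverse := by
  refine ⟨fun i hi => hl.1 i (List.mem_reverse.1 hi), fun v => ?_⟩
  rw [List.mem_reverse, hl.2]

theorem card_gt_of_allSub {n k : ℕ} {G : SimpleGraph (Fin n)} {nb : ℕ → ℕ} (hnb : IsNb G nb)
    (h : allSub (good nb n) (List.range n) k [] = true) {T : Finset (Fin n)}
    (hT : Maximal (Irr G) T) : k < T.card := by
  by_contra hcon
  obtain ⟨l, hl, hlen, hrep⟩ := exists_rep T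
  have := allSub_spec _ _ _ _ h l hl (by omega)
  rw [List.append_nil] at this
  exact not_maximal_of_good hnb hrep.reverse this hT

/-! ### The example -/

/-- Table of the closed neighbourhoods, `17` bits per vertex. -/
def big : ℕ :=
  497689578156839158432810709502238581363051444486095989090908237826099295709484210733313

/-- Closed neighbourhood mask of vertex `i`. -/
def nb (i : ℕ) : ℕ := (big >>> (17 * i)) &&& 131071

/-- For every edge `a b` (with `a < b`) a maximal irredundant set of size four of `G - a b`. -/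
def certs : List (ℕ × ℕ × List ℕ) :=
  [(0, 8, [3, 7, 8, 11]), (0, 14, [2, 4, 5, 6]), (1, 9, [2, 6, 9, 10]),
   (1, 15, [2, 6, 10, 15]), (2, 7, [2, 4, 5, 7]), (2, 11, [2, 6, 10, 11]),
   (2, 12, [2, 4, 5, 6]), (2, 14, [1, 6, 10, 14]), (3, 6, [3, 4, 5, 6]),
   (3, 10, [3, 7, 10, 11]), (3, 13, [3, 4, 5, 7]), (3, 15, [0, 6, 13, 16]),
   (4, 6, [5, 6, 10, 16]), (4, 7, [0, 5, 7, 11]), (4, 9, [4, 5, 6, 12]),
   (4, 15, [0, 9, 10, 15]), (4, 16, [2, 7, 13, 15]), (5, 6, [1, 4, 6, 10]),
   (5, 7, [4, 7, 11, 16]), (5, 8, [4, 5, 7, 12]), (5, 14, [1, 8, 11, 14]),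
   (5, 16, [3, 6, 12, 14]), (6, 10, [3, 4, 5, 6]), (6, 11, [0, 7, 11, 16]),
   (6, 13, [3, 4, 5, 6]), (7, 10, [0, 6, 10, 14]), (7, 11, [2, 4, 5, 7]),
   (7, 12, [2, 4, 5, 7]), (8, 9, [4, 6, 9, 15]), (8, 11, [0, 7, 11, 14]),
   (8, 12, [2, 3, 7, 13]), (8, 15, [9, 10, 15, 16]), (9, 10, [1, 6, 10, 15]),
   (9, 13, [2, 3, 6, 12]), (9, 14, [8, 11, 14, 16]), (10, 13, [3, 7, 10, 11]),
   (10, 14, [2, 6, 10, 12]), (10, 15, [3, 7, 10, 12]), (11, 12, [2, 6, 10, 11]),
   (11, 14, [2, 6, 11, 13]), (11, 15, [3, 7, 11, 13])]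

theorem check_main : allSub (good nb 17) (List.range 17) 4 [] = true := by decide +kernel


/-- Closed neighbourhood masks after the deletion of the edge `a b`. -/
def nbE (a b i : ℕ) : ℕ :=
  bif Nat.beq i a then nb i ^^^ 2 ^ b else bif Nat.beq i b then nb i ^^^ 2 ^ a else nb i

theorem check_certs : certs.all (fun c =>
    maxB (nbE c.1 c.2.1) 17 c.2.2 && c.2.2.all (fun i => Nat.blt i 17) &&
      Nat.ble c.2.2.length 4) = true := by decide +kernel

theorem check_all_edges : (List.range 17).all (fun a => (List.range 17).all (fun b =>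
    !(Nat.blt a b && (nb a).testBit b) ||
      certs.any (fun c => Nat.beq c.1 a && Nat.beq c.2.1 b))) = true := by decide +kernel

theorem check_refl : (List.range 17).all (fun a => (nb a).testBit a) = true := by decide +kernel

theorem check_symm : (List.range 17).all (fun a => (List.range 17).all (fun b =>
    !((nb a).testBit b) || (nb b).testBit a)) = true := by decide +kernel

theorem check_max : maxB nb 17 [0, 1, 2, 3, 16] = true := by decide +kernel

/-- The graph on 17 vertices. -/
def gr : SimpleGraph (Fin 17) where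
  Adj i j := i ≠ j ∧ (nb i).testBit j = true
  symm := ⟨by
    rintro i j ⟨hij, h⟩
    refine ⟨hij.symm, ?_⟩
    have h1 := List.all_eq_true.1 check_symm i (List.mem_range.2 i.2)
    have h2 := List.all_eq_true.1 h1 j (List.mem_range.2 j.2)
    simpa [h] using h2⟩
  loopless := ⟨fun i h => h.1 rfl⟩

theorem nb_lt {i w : ℕ} (h : (nb i).testBit w = true) : w < 17 := by
  unfold nb at h
  rw [Nat.testBit_and, Bool.and_eq_true] at h
  have h2 := h.2
  rw [show (131071 : ℕ) = 2 ^ 17 - 1 by norm_num, Nat.testBit_two_pow_sub_one] at h2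
  simpa using h2

theorem nb_refl (i : Fin 17) : (nb i).testBit i = true :=
  List.all_eq_true.1 check_refl i (List.mem_range.2 i.2)

theorem isNb_gr : IsNb gr nb := by
  intro v w
  constructor
  · intro h
    refine ⟨nb_lt h, ?_⟩
    by_cases hvw : (⟨w, nb_lt h⟩ : Fin 17) = v
    · exact Or.inl hvw
    · exact Or.inr ⟨fun h' => hvw h'.symm, h⟩
  · rintro ⟨h, hw | hw⟩
    · have := nb_refl v
      rw [← hw] at this ⊢
      exact this
    · exact hw.2

theorem isNb_delete {a b : Fin 17} (hab : gr.Adj a b) :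
    IsNb (gr.deleteEdges {s(a, b)}) (nbE a b) := by
  have hne : a ≠ b := hab.1
  have hneN : (a : ℕ) ≠ b := fun h => hne (Fin.ext h)
  intro v w
  have key : (nbE a b v).testBit w = true ↔
      ((nb v).testBit w = true ∧ ¬ ((v = a ∧ w = b) ∨ (v = b ∧ w = a))) := by
    unfold nbE
    by_cases hva : v = a
    · subst hva
      rw [Nat.beq_refl, cond_true, Nat.testBit_xor, Nat.testBit_two_pow]
      by_cases hw : (b : ℕ) = w
      · subst hw
        simp [hab.2]
      · have hw' : ¬ w = (b : ℕ) := fun h => hw h.symm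
        simp [hw, hw', hne]
    · have h1 : Nat.beq (v : ℕ) a = false := by
        rw [← Bool.not_eq_true]
        intro h
        exact hva (Fin.ext (Nat.eq_of_beq_eq_true h))
      rw [h1, cond_false]
      by_cases hvb : v = b
      · subst hvb
        rw [Nat.beq_refl, cond_true, Nat.testBit_xor, Nat.testBit_two_pow]
        by_cases hw : (a : ℕ) = w
        · subst hw
          have := hab.symm.2
          simp [this]
        · have hw' : ¬ w = (a : ℕ) := fun h => hw h.symm
          simp [hw, hw', hva]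
      · have h2 : Nat.beq (v : ℕ) b = false := by
          rw [← Bool.not_eq_true]
          intro h
          exact hvb (Fin.ext (Nat.eq_of_beq_eq_true h))
        rw [h2, cond_false]
        simp [hva, hvb]
  rw [key, isNb_gr v w]
  constructor
  · rintro ⟨⟨h, h1⟩, h2⟩
    refine ⟨h, ?_⟩
    rcases h1 with h1 | h1
    · exact Or.inl h1
    · refine Or.inr ?_
      rw [SimpleGraph.deleteEdges_adj]
      refine ⟨h1, fun h3 => h2 ?_⟩
      rw [Set.mem_singleton_iff, Sym2.eq_iff] at h3
      rcases h3 with ⟨h4, h5⟩ | ⟨h4, h5⟩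
      · exact Or.inl ⟨h4, congrArg Fin.val h5⟩
      · exact Or.inr ⟨h4, congrArg Fin.val h5⟩
  · rintro ⟨h, h1⟩
    rcases h1 with h1 | h1
    · refine ⟨⟨h, Or.inl h1⟩, ?_⟩
      rintro (⟨h2, h3⟩ | ⟨h2, h3⟩)
      · apply hne
        rw [← h2, ← h1]
        exact Fin.ext h3
      · apply hne
        rw [← h2, ← h1]
        exact (Fin.ext h3).symm
    · rw [SimpleGraph.deleteEdges_adj] at h1
      refine ⟨⟨h, Or.inr h1.1⟩, ?_⟩
      rintro (⟨h2, h3⟩ | ⟨h2, h3⟩)
      · apply h1.2
        rw [Set.mem_singleton_iff, Sym2.eq_iff]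
        exact Or.inl ⟨h2, Fin.ext h3⟩
      · apply h1.2
        rw [Set.mem_singleton_iff, Sym2.eq_iff]
        exact Or.inr ⟨h2, Fin.ext h3⟩

/-- The finset of `Fin n` listed by `l`. -/
def ofList (n : ℕ) (l : List ℕ) : Finset (Fin n) := Finset.univ.filter (fun v => (v : ℕ) ∈ l)

theorem rep_ofList {n : ℕ} {l : List ℕ} (h : ∀ i ∈ l, i < n) : Rep (ofList n l) l := by
  refine ⟨h, fun v => ?_⟩
  simp [ofList]

theorem card_ofList (n : ℕ) (l : List ℕ) : (ofList n l).card ≤ l.length := by
  classical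
  calc (ofList n l).card = ((ofList n l).map Fin.valEmbedding).card := (Finset.card_map _).symm
    _ ≤ l.toFinset.card := by
        apply Finset.card_le_card
        intro i hi
        obtain ⟨v, hv, rfl⟩ := Finset.mem_map.1 hi
        rw [List.mem_toFinset]
        exact (Finset.mem_filter.1 hv).2
    _ ≤ l.length := List.toFinset_card_le l

/-- After the deletion of any edge there is a maximal irredundant set of size at most four. -/
theorem exists_small {a b : Fin 17} (hab : gr.Adj a b) (hlt : a < b) :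
    ∃ T : Finset (Fin 17), Maximal (Irr (gr.deleteEdges {s(a, b)})) T ∧ T.card ≤ 4 := by
  have h1 := List.all_eq_true.1 check_all_edges a (List.mem_range.2 a.2)
  have h2 := List.all_eq_true.1 h1 b (List.mem_range.2 b.2)
  have hlt' : Nat.blt (a : ℕ) b = true := by
    rw [Nat.blt_eq]
    exact hlt
  rw [hlt', hab.2] at h2
  simp only [Bool.and_self, Bool.not_true, Bool.false_or, List.any_eq_true,
    Bool.and_eq_true] at h2
  obtain ⟨⟨a', b', l⟩, hc, ha, hb⟩ := h2
  have ha' : a' = a := Nat.eq_of_beq_eq_true ha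
  have hb' : b' = b := Nat.eq_of_beq_eq_true hb
  subst ha' hb'
  have h3 := List.all_eq_true.1 check_certs _ hc
  simp only [Bool.and_eq_true, List.all_eq_true, Nat.blt_eq, Nat.ble_eq] at h3
  obtain ⟨⟨h3, h4⟩, h5⟩ := h3
  exact ⟨ofList 17 l, maximal_of_maxB (isNb_delete hab) (rep_ofList h4) h3,
    (card_ofList 17 l).trans h5⟩

theorem exists_small' {a b : Fin 17} (hab : gr.Adj a b) :
    ∃ T : Finset (Fin 17), Maximal (Irr (gr.deleteEdges {s(a, b)})) T ∧ T.card ≤ 4 := by
  rcases lt_or_gt_of_ne hab.1 with h | h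
  · exact exists_small hab h
  · rw [Sym2.eq_swap]
    exact exists_small hab.symm h


end Pool.Agent.H.MP_3e8e5c_co.helper58
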