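import Mathlib
import Pool.Agent.H.MP_3e8e5c_co.helper58.Core

set_option autoImplicit false

namespace Pool.Agent.H.MP_3e8e5c_co.helper58

open Finset

/-- Closed neighbourhood. -/
def cN {V : Type*} (G : SimpleGraph V) (v : V) : Set V := {w | w = v ∨ G.Adj v w}

/-- Irredundant sets. -/
def Irred {V : Type*} (G : SimpleGraph V) (S : Finset V) : Prop :=
  ∀ s ∈ S, (cN G s \ ⋃ u ∈ {u | u ∈ S ∧ u ≠ s}, cN G u).Nonempty

/-- The lower irredundance number. -/
noncomputable def ir {V : Type*} (G : SimpleGraph V) : ℕ :=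
  sInf {k : ℕ | ∃ S : Finset V, Maximal (Irred G) S ∧ S.card = k}

theorem irred_iff {V : Type*} {G : SimpleGraph V} {S : Finset V} : Irred G S ↔
    ∀ v ∈ S, ∃ w, (w = v ∨ G.Adj v w) ∧ ∀ u ∈ S, u ≠ v → ¬ (w = u ∨ G.Adj u w) := by
  unfold Irred
  refine forall₂_congr (fun v _ => ?_)
  unfold Set.Nonempty
  refine exists_congr (fun w => ?_)
  simp only [Set.mem_diff, Set.mem_iUnion, not_exists, Set.mem_setOf_eq, cN, exists_prop, not_and]
  constructor
  · rintro ⟨h1, h2⟩
    exact ⟨h1, fun u hu huv => h2 u ⟨hu, huv⟩⟩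
  · rintro ⟨h1, h2⟩
    exact ⟨h1, fun u hu => h2 u hu.1 hu.2⟩

theorem Irred.mono {V : Type*} {G : SimpleGraph V} {S T : Finset V} (h : S ⊆ T)
    (hT : Irred G T) : Irred G S := by
  rw [irred_iff] at hT ⊢
  intro v hv
  obtain ⟨w, hw, hu⟩ := hT v (h hv)
  exact ⟨w, hw, fun u hu' => hu u (h hu')⟩

theorem maximal_irred_iff {V : Type*} [DecidableEq V] {G : SimpleGraph V} {T : Finset V} :
    Maximal (Irred G) T ↔ Irred G T ∧ ∀ w, w ∉ T → ¬ Irred G (insert w T) := by
  constructor
  · intro h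
    refine ⟨h.1, fun w hw hcon => hw ?_⟩
    exact h.2 hcon (subset_insert _ _) (mem_insert_self _ _)
  · rintro ⟨h1, h2⟩
    refine ⟨h1, fun T' hT' hsub w hw => ?_⟩
    by_contra hwT
    exact h2 w hwT (hT'.mono (insert_subset hw hsub))

theorem exists_maximal {V : Type*} [Fintype V] (G : SimpleGraph V) :
    ∃ S : Finset V, Maximal (Irred G) S ∧ S.card = ir G := by
  classical
  have hne : {k : ℕ | ∃ S : Finset V, Maximal (Irred G) S ∧ S.card = k}.Nonempty := by
    have h0 : Irred G (∅ : Finset V) := fun s hs => absurd hs (notMem_empty s)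
    obtain ⟨S, -, hS⟩ := (Set.toFinite {S : Finset V | Irred G S}).exists_le_maximal
      (show (∅ : Finset V) ∈ {S : Finset V | Irred G S} from h0)
    exact ⟨S.card, S, hS, rfl⟩
  exact Nat.sInf_mem hne

theorem ir_le {V : Type*} {G : SimpleGraph V} {S : Finset V} (h : Maximal (Irred G) S) :
    ir G ≤ S.card := Nat.sInf_le ⟨S, h, rfl⟩

/-- Disjoint union of a family of graphs on the same vertex set. -/
def dU {ι V : Type*} (G : ι → SimpleGraph V) : SimpleGraph (ι × V) where
  Adj p q := p.1 = q.1 ∧ (G p.1).Adj p.2 q.2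
  symm := by
    refine ⟨?_⟩
    rintro ⟨i, u⟩ ⟨j, v⟩ ⟨h, h'⟩
    dsimp at h h' ⊢
    subst h
    exact ⟨rfl, h'.symm⟩
  loopless := by
    refine ⟨?_⟩
    rintro ⟨i, u⟩ ⟨-, h'⟩
    exact (G i).loopless.irrefl u h'

/-- Slices. -/
def sl {ι V : Type*} [DecidableEq ι] [Fintype V] [DecidableEq V] (S : Finset (ι × V)) (i : ι) :
    Finset V := univ.filter (fun v => (i, v) ∈ S)

variable {ι V : Type*} [Fintype ι] [DecidableEq ι] [Fintype V] [DecidableEq V]

omit [Fintype ι] in
theorem irred_dU (G : ι → SimpleGraph V) (S : Finset (ι × V)) :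
    Irred (dU G) S ↔ ∀ i, Irred (G i) (sl S i) := by
  constructor
  · intro h i
    rw [irred_iff] at h ⊢
    intro v hv
    rw [sl, mem_filter] at hv
    obtain ⟨⟨j, w⟩, hw, hu⟩ := h (i, v) hv.2
    have hj : j = i := by
      rcases hw with hw | hw
      · exact (Prod.mk.injEq _ _ _ _ ▸ hw).1
      · exact hw.1.symm
    subst hj
    refine ⟨w, ?_, fun u hu' huv hcon => ?_⟩
    · rcases hw with hw | hw
      · left; exact (Prod.mk.injEq _ _ _ _ ▸ hw).2
      · right; exact hw.2
    · rw [sl, mem_filter] at hu'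
      apply hu (j, u) hu'.2
      · intro h'
        exact huv (Prod.mk.injEq _ _ _ _ ▸ h').2
      · rcases hcon with hcon | hcon
        · left; rw [hcon]
        · right; exact ⟨rfl, hcon⟩
  · intro h
    rw [irred_iff]
    rintro ⟨i, v⟩ hv
    have h1 := h i
    rw [irred_iff] at h1
    obtain ⟨w, hw, hu⟩ := h1 v (by rw [sl, mem_filter]; exact ⟨mem_univ _, hv⟩)
    refine ⟨(i, w), ?_, ?_⟩
    · rcases hw with hw | hw
      · left; rw [hw]
      · right; exact ⟨rfl, hw⟩
    · rintro ⟨j, u⟩ hju hne hcon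
      have hj : j = i := by
        rcases hcon with hcon | hcon
        · exact (Prod.mk.injEq _ _ _ _ ▸ hcon).1.symm
        · exact hcon.1
      subst hj
      refine hu u (by rw [sl, mem_filter]; exact ⟨mem_univ _, hju⟩) ?_ ?_
      · intro h'
        exact hne (by rw [h'])
      · rcases hcon with hcon | hcon
        · left; exact (Prod.mk.injEq _ _ _ _ ▸ hcon).2
        · right; exact hcon.2

omit [Fintype ι] in
theorem sl_insert_self (S : Finset (ι × V)) (i : ι) (v : V) :
    sl (insert (i, v) S) i = insert v (sl S i) := by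
  ext u
  simp [sl]

omit [Fintype ι] in
theorem sl_insert_ne (S : Finset (ι × V)) {i j : ι} (h : j ≠ i) (v : V) :
    sl (insert (i, v) S) j = sl S j := by
  ext u
  simp [sl, h]

omit [Fintype ι] in
theorem maximal_dU (G : ι → SimpleGraph V) (S : Finset (ι × V)) :
    Maximal (Irred (dU G)) S ↔ ∀ i, Maximal (Irred (G i)) (sl S i) := by
  rw [maximal_irred_iff, irred_dU]
  constructor
  · rintro ⟨h1, h2⟩ i
    rw [maximal_irred_iff]
    refine ⟨h1 i, fun w hw hcon => ?_⟩
    apply h2 (i, w) (fun h => hw (by rw [sl, mem_filter]; exact ⟨mem_univ _, h⟩))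
    rw [irred_dU]
    intro j
    by_cases hj : j = i
    · subst hj
      rw [sl_insert_self]
      exact hcon
    · rw [sl_insert_ne S hj]
      exact h1 j
  · intro h
    refine ⟨fun i => (h i).1, ?_⟩
    rintro ⟨i, w⟩ hw hcon
    rw [irred_dU] at hcon
    have h3 := hcon i
    rw [sl_insert_self] at h3
    exact (maximal_irred_iff.1 (h i)).2 w (fun h => hw (by
      rw [sl, mem_filter] at h; exact h.2)) h3

theorem card_eq_sum_sl (S : Finset (ι × V)) : S.card = ∑ i, (sl S i).card := by
  have h1 : S = univ.biUnion (fun i => (sl S i).map ⟨fun v => (i, v), fun a b h =>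
      (Prod.mk.injEq _ _ _ _ ▸ h).2⟩) := by
    ext ⟨i, v⟩
    simp [sl]
  conv_lhs => rw [h1]
  rw [card_biUnion]
  · simp
  · intro i _ j _ hij
    rw [Function.onFun, disjoint_left]
    rintro ⟨k, v⟩ h h'
    simp only [mem_map, Function.Embedding.coeFn_mk, Prod.mk.injEq] at h h'
    obtain ⟨_, _, h, _⟩ := h
    obtain ⟨_, _, h', _⟩ := h'
    exact hij (h.trans h'.symm)

theorem ir_dU (G : ι → SimpleGraph V) : ir (dU G) = ∑ i, ir (G i) := by
  apply le_antisymm
  · choose S hS hc using fun i => exists_maximal (G i)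
    set T : Finset (ι × V) := univ.filter (fun p => p.2 ∈ S p.1) with hT
    have hsl : ∀ i, sl T i = S i := by
      intro i
      ext v
      simp [sl, hT]
    have hm : Maximal (Irred (dU G)) T := by
      rw [maximal_dU]
      intro i
      rw [hsl]
      exact hS i
    calc ir (dU G) ≤ T.card := ir_le hm
      _ = ∑ i, (sl T i).card := card_eq_sum_sl T
      _ = ∑ i, ir (G i) := by
          apply sum_congr rfl
          intro i _
          rw [hsl, hc]
  · obtain ⟨T, hT, hc⟩ := exists_maximal (dU G)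
    rw [← hc, card_eq_sum_sl T]
    rw [maximal_dU] at hT
    exact sum_le_sum (fun i _ => ir_le (hT i))

end Pool.Agent.H.MP_3e8e5c_co.helper58
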